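import Pool.Agent.Helper454.HausConv

/-!
# Subsets of finite positive Hausdorff measure: a ZFC refutation of `(∗)`, and the exact gauges
-/

namespace Pool.Agent.Results.MP_b87f19_lc.GaugeCriterion

open Pool.Agent.Helper454.Haus Filter Topology

/-- Main result. -/
theorem result :
    (∃ f : ℝ → ℝ, IsGauge f ∧ ∃ A : Set ℝ, 0 < haus f A ∧
      ∀ A₀ ⊆ A, haus f A₀ = 0 ∨ haus f A₀ = ⊤) ∧
    (∀ f : ℝ → ℝ, IsGauge f → Tendsto (fun t => f t / t) (𝓝[>] 0) atTop →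
      ∃ A ⊆ Set.Icc (0 : ℝ) 1, UNull A ∧ haus f A = ⊤ ∧
        ∀ g : ℝ → ℝ, IsGauge g → ∀ A₀ ⊆ A, haus g A₀ = 0 ∨ haus g A₀ = ⊤) ∧
    (∀ f : ℝ → ℝ, IsGauge f → ¬ Tendsto (fun t => f t / t) (𝓝[>] 0) atTop →
      ∀ A : Set ℝ, 0 < haus f A → ∃ A₀ ⊆ A, 0 < haus f A₀ ∧ haus f A₀ < ⊤) := by
  have key : ∀ f : ℝ → ℝ, IsGauge f → Tendsto (fun t => f t / t) (𝓝[>] 0) atTop →
      ∃ A ⊆ Set.Icc (0 : ℝ) 1, UNull A ∧ haus f A = ⊤ ∧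
        ∀ g : ℝ → ℝ, IsGauge g → ∀ A₀ ⊆ A, haus g A₀ = 0 ∨ haus g A₀ = ⊤ := by
    intro f hf hlim
    obtain ⟨A, hA1, hA2, hA3⟩ := exists_unull_pos f hf hlim
    exact ⟨A, hA1, hA2, (unull_dichotomy hA2 hf A subset_rfl).resolve_left hA3,
      fun g hg => unull_dichotomy hA2 hg⟩
  refine ⟨?_, key, fun f hf hlim A hA => finPos_of_not_tendsto f hf hlim A hA⟩
  obtain ⟨A, -, -, h1, h2⟩ := key Real.sqrt sqrt_isGauge sqrt_tendsto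
  exact ⟨Real.sqrt, sqrt_isGauge, A, by rw [h1]; exact ENNReal.zero_lt_top,
    h2 Real.sqrt sqrt_isGauge⟩

end Pool.Agent.Results.MP_b87f19_lc.GaugeCriterion
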